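import Mathlib

open Set Topology

universe u

namespace Pool.Agent.Results.MP_0256c3_gt.NotSuperadic

/-- `P` is a closed subbase of `X`: its members are closed, and every closed set is an intersection
of finite unions of members of `P`. -/
def IsClosedSubbase {X : Type*} [TopologicalSpace X] (P : Set (Set X)) : Prop :=
  (∀ A ∈ P, IsClosed A) ∧
    ∀ F : Set X, IsClosed F → ∃ 𝒢 : Set (Set X),
      (∀ G ∈ 𝒢, ∃ t : Set (Set X), t.Finite ∧ t ⊆ P ∧ G = ⋃₀ t) ∧ F = ⋂₀ 𝒢

/-- `P` is binary: every nonempty linked subfamily (any two members intersect) has nonempty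
intersection. -/
def IsBinary {X : Type*} (P : Set (Set X)) : Prop :=
  ∀ L : Set (Set X), L ⊆ P → L.Nonempty → (∀ A ∈ L, ∀ B ∈ L, (A ∩ B).Nonempty) →
    (⋂₀ L).Nonempty

/-- `X` is supercompact: it has a binary closed subbase. -/
def Supercompact (X : Type*) [TopologicalSpace X] : Prop :=
  ∃ P : Set (Set X), IsClosedSubbase P ∧ IsBinary P

/-- `K` is Eberlein compact: compact, and homeomorphic to a subset of `c_0(Γ)` with the pointwise
topology, for some set `Γ`. -/
def EberleinCompact (K : Type) [TopologicalSpace K] : Prop :=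
  CompactSpace K ∧ ∃ (Γ : Type) (e : K → Γ → ℝ), IsEmbedding e ∧
    ∀ x : K, ∀ ε : ℝ, 0 < ε → {γ : Γ | ε ≤ |e x γ|}.Finite

section Supercompact

variable {S : Type u} [TopologicalSpace S]

/-- A supercompact space is compact (Alexander subbase lemma). -/
theorem compactSpace_of_supercompact {P : Set (Set S)} (hP : IsClosedSubbase P)
    (hB : IsBinary P) : CompactSpace S := by
  have hgen : (inferInstance : TopologicalSpace S) =
      TopologicalSpace.generateFrom {U : Set S | Uᶜ ∈ P} := by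
    apply le_antisymm
    · apply le_generateFrom
      intro U hU
      have := hP.1 _ hU
      exact isClosed_compl_iff.1 this
    · intro U hU
      obtain ⟨𝒢, h𝒢, hF⟩ := hP.2 Uᶜ (isClosed_compl_iff.2 hU)
      have hU' : U = ⋃₀ {G : Set S | Gᶜ ∈ 𝒢} := by
        rw [← compl_compl U, hF, Set.compl_sInter]
        congr 1
        ext G
        simp only [Set.mem_image, Set.mem_ofPred_eq]
        constructor
        · rintro ⟨G', hG', rfl⟩
          rwa [compl_compl]
        · intro hG
          exact ⟨Gᶜ, hG, compl_compl G⟩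
      rw [hU']
      apply @isOpen_sUnion _ (TopologicalSpace.generateFrom {U : Set S | Uᶜ ∈ P})
      intro G hG
      obtain ⟨t, htf, htP, hGt⟩ := h𝒢 _ hG
      have hG' : G = ⋂₀ ((fun A : Set S => Aᶜ) '' t) := by
        rw [← compl_compl G, hGt, Set.compl_sUnion]
      rw [hG']
      apply @Set.Finite.isOpen_sInter _ (TopologicalSpace.generateFrom {U : Set S | Uᶜ ∈ P})
      · exact htf.image _
      · rintro _ ⟨A, hA, rfl⟩
        apply TopologicalSpace.isOpen_generateFrom_of_mem
        show Aᶜᶜ ∈ P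
        rw [compl_compl]
        exact htP hA
  refine ⟨isCompact_generateFrom hgen ?_⟩
  intro Q hQ hcov
  by_cases hne : Nonempty S
  swap
  · refine ⟨∅, empty_subset _, Set.finite_empty, ?_⟩
    intro x _
    exact absurd ⟨x⟩ hne
  obtain ⟨x₀⟩ := hne
  set L : Set (Set S) := {A | Aᶜ ∈ Q} with hL
  have hLP : L ⊆ P := by
    intro A hA
    have := hQ hA
    simpa using this
  have hLne : L.Nonempty := by
    obtain ⟨U, hU, _⟩ := hcov (mem_univ x₀)
    exact ⟨Uᶜ, by simpa [hL] using hU⟩
  by_contra hcon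
  push Not at hcon
  have hlink : ∀ A ∈ L, ∀ B ∈ L, (A ∩ B).Nonempty := by
    intro A hA B hB'
    by_contra hAB
    rw [Set.not_nonempty_iff_eq_empty] at hAB
    apply hcon {Aᶜ, Bᶜ} _ (Set.toFinite _)
    · intro y _
      by_cases hy : y ∈ A
      · refine ⟨Bᶜ, by simp, fun hyB => ?_⟩
        have : y ∈ A ∩ B := ⟨hy, hyB⟩
        rw [hAB] at this
        exact this
      · exact ⟨Aᶜ, by simp, hy⟩
    · intro U hU
      rcases hU with rfl | rfl
      · exact hA
      · exact hB'
  obtain ⟨y, hy⟩ := hB L hLP hLne hlink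
  obtain ⟨U, hU, hyU⟩ := hcov (mem_univ y)
  have : y ∈ Uᶜ := hy Uᶜ (by simpa [hL] using hU)
  exact this hyU

/-- The intersections of subfamilies of `P`. -/
def Inters (P : Set (Set S)) : Set (Set S) := {M | ∃ L : Set (Set S), L ⊆ P ∧ M = ⋂₀ L}

omit [TopologicalSpace S] in
theorem triple {P : Set (Set S)} (hB : IsBinary P) {M₁ M₂ M₃ : Set S}
    (h₁ : M₁ ∈ Inters P) (h₂ : M₂ ∈ Inters P) (h₃ : M₃ ∈ Inters P)
    (h12 : (M₁ ∩ M₂).Nonempty) (h13 : (M₁ ∩ M₃).Nonempty) (h23 : (M₂ ∩ M₃).Nonempty) :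
    (M₁ ∩ M₂ ∩ M₃).Nonempty := by
  obtain ⟨L₁, hL₁, rfl⟩ := h₁
  obtain ⟨L₂, hL₂, rfl⟩ := h₂
  obtain ⟨L₃, hL₃, rfl⟩ := h₃
  rcases Set.eq_empty_or_nonempty (L₁ ∪ L₂ ∪ L₃) with he | hne
  · have e1 : L₁ = ∅ := by
      rw [Set.union_empty_iff, Set.union_empty_iff] at he; exact he.1.1
    have e2 : L₂ = ∅ := by
      rw [Set.union_empty_iff, Set.union_empty_iff] at he; exact he.1.2
    have e3 : L₃ = ∅ := by
      rw [Set.union_empty_iff, Set.union_empty_iff] at he; exact he.2
    obtain ⟨x, _⟩ := h12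
    exact ⟨x, by simp [e1, e2, e3]⟩
  · have key : (⋂₀ (L₁ ∪ L₂ ∪ L₃)).Nonempty := by
      apply hB _ (Set.union_subset (Set.union_subset hL₁ hL₂) hL₃) hne
      rintro A ((hA | hA) | hA) B ((hB' | hB') | hB')
      · exact h12.mono fun x hx => ⟨hx.1 A hA, hx.1 B hB'⟩
      · exact h12.mono fun x hx => ⟨hx.1 A hA, hx.2 B hB'⟩
      · exact h13.mono fun x hx => ⟨hx.1 A hA, hx.2 B hB'⟩
      · exact h12.mono fun x hx => ⟨hx.2 A hA, hx.1 B hB'⟩
      · exact h12.mono fun x hx => ⟨hx.2 A hA, hx.2 B hB'⟩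
      · exact h23.mono fun x hx => ⟨hx.1 A hA, hx.2 B hB'⟩
      · exact h13.mono fun x hx => ⟨hx.2 A hA, hx.1 B hB'⟩
      · exact h23.mono fun x hx => ⟨hx.2 A hA, hx.1 B hB'⟩
      · exact h23.mono fun x hx => ⟨hx.2 A hA, hx.2 B hB'⟩
    obtain ⟨x, hx⟩ := key
    exact ⟨x, ⟨fun A hA => hx A (Or.inl (Or.inl hA)), fun A hA => hx A (Or.inl (Or.inr hA))⟩,
      fun A hA => hx A (Or.inr hA)⟩

/-- A clopen set is a finite union of intersections of subfamilies of the closed subbase. -/
theorem clopen_finite_union [CompactSpace S] {P : Set (Set S)} (hP : IsClosedSubbase P)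
    {U : Set S} (hU : IsClopen U) :
    ∃ (n : ℕ) (M : Fin n → Set S), (∀ j, M j ∈ Inters P) ∧ U = ⋃ j, M j := by
  classical
  obtain ⟨𝒢, h𝒢, hF⟩ := hP.2 U hU.isClosed
  choose! t htf htP hGt using h𝒢
  have hclosed : ∀ G ∈ 𝒢, IsClosed G := by
    intro G hG
    rw [hGt G hG]
    rw [Set.sUnion_eq_biUnion]
    exact (htf G hG).isClosed_biUnion fun A hA => hP.1 A (htP G hG hA)
  -- finitely many members of `𝒢` suffice
  obtain ⟨v, hv⟩ : ∃ v : Finset 𝒢, Uᶜ ∩ ⋂ G ∈ v, (G : Set S) = ∅ := by
    apply hU.compl.isClosed.isCompact.elim_finite_subfamily_closed (fun G : 𝒢 => (G : Set S))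
      (fun G => hclosed G G.2)
    rw [← Set.sInter_eq_iInter, ← hF, Set.compl_inter_self]
  have hv' : ⋂ G ∈ v, (G : Set S) ⊆ U := by
    intro x hx
    by_contra hxU
    have : x ∈ Uᶜ ∩ ⋂ G ∈ v, (G : Set S) := ⟨hxU, hx⟩
    rw [hv] at this
    exact this
  have hUG : ∀ G : 𝒢, U ⊆ (G : Set S) := by
    intro G
    rw [hF]
    exact Set.sInter_subset_of_mem G.2
  -- choose a member for each point
  have hpt : ∀ x ∈ U, ∀ G : v, ∃ A ∈ t (G : 𝒢), x ∈ A := by
    intro x hx G
    have h1 := hUG (G : 𝒢) hx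
    rw [hGt _ (G : 𝒢).2] at h1
    exact h1
  have : ∀ G : v, Finite (t (G : 𝒢)) := fun G => (htf _ (G : 𝒢).2).to_subtype
  let Φ : (∀ G : v, t (G : 𝒢)) → Set S := fun φ => ⋂ G : v, (φ G : Set S)
  have hΦ : ∀ φ, Φ φ ∈ Inters P := by
    intro φ
    refine ⟨Set.range fun G : v => (φ G : Set S), ?_, ?_⟩
    · rintro _ ⟨G, rfl⟩
      exact htP _ (G : 𝒢).2 (φ G).2
    · rw [Set.sInter_range]
  obtain ⟨n, ⟨e⟩⟩ := Finite.exists_equiv_fin (∀ G : v, t (G : 𝒢))
  refine ⟨n, fun j => Φ (e.symm j), fun j => hΦ _, ?_⟩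
  apply Set.Subset.antisymm
  · intro x hx
    choose A hA hxA using hpt x hx
    rw [Set.mem_iUnion]
    refine ⟨e (fun G => ⟨A G, hA G⟩), ?_⟩
    rw [Equiv.symm_apply_apply]
    exact Set.mem_iInter.2 fun G => hxA G
  · intro x hx
    rw [Set.mem_iUnion] at hx
    obtain ⟨j, hj⟩ := hx
    apply hv'
    rw [Set.mem_iInter₂]
    intro G hG
    rw [hGt _ G.2]
    exact ⟨_, (e.symm j ⟨G, hG⟩).2, Set.mem_iInter.1 hj ⟨G, hG⟩⟩

end Supercompact

section Combinatorics

variable {V : Type}

/-- Some fibre of a map from an uncountable type to `ℕ` is infinite. -/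
theorem exists_infinite_fibre [Uncountable V] (m : V → ℕ) : ∃ a : ℕ, (m ⁻¹' {a}).Infinite := by
  by_contra hcon
  push Not at hcon
  have h1 : (univ : Set V) = ⋃ a : ℕ, m ⁻¹' {a} := by ext x; simp
  have h2 : (univ : Set V).Countable := by
    rw [h1]
    exact Set.countable_iUnion fun a => (hcon a).countable
  exact (Set.not_countable_univ) h2

/-- For a countable partition of the set of all functions `V × V → Bool`, some class realises all
patterns on arbitrarily large finite boxes inside `W₁ × W₂`. -/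
theorem exists_rich_class {W₁ W₂ : Set V} (h₁ : W₁.Infinite) (h₂ : W₂.Infinite)
    (m : (V × V → Bool) → ℕ) :
    ∃ c : ℕ, ∀ n : ℕ, ∃ (A : Fin n → V) (B : Fin n → V), (∀ i, A i ∈ W₁) ∧ (∀ i, B i ∈ W₂) ∧
      ∀ π : Fin n → Fin n → Bool, ∃ p : V × V → Bool, m p = c ∧ ∀ i j, p (A i, B j) = π i j := by
  classical
  by_contra hcon
  push Not at hcon
  choose n hn using hcon
  let e₁ : ℕ ↪ W₁ := h₁.natEmbedding
  let e₂ : ℕ ↪ W₂ := h₂.natEmbedding
  let code : (Σ c : ℕ, Fin (n c)) → ℕ := Encodable.encode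
  have hcode : Function.Injective code := Encodable.encode_injective
  let A : ∀ c, Fin (n c) → V := fun c i => e₁ (code ⟨c, i⟩)
  let B : ∀ c, Fin (n c) → V := fun c i => e₂ (code ⟨c, i⟩)
  have hA : ∀ c i c' i', A c i = A c' i' → (⟨c, i⟩ : Σ c : ℕ, Fin (n c)) = ⟨c', i'⟩ := by
    intro c i c' i' h
    exact hcode (e₁.injective (Subtype.ext h))
  have hB : ∀ c i c' i', B c i = B c' i' → (⟨c, i⟩ : Σ c : ℕ, Fin (n c)) = ⟨c', i'⟩ := by
    intro c i c' i' h
    exact hcode (e₂.injective (Subtype.ext h))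
  have hπ : ∀ c, ∃ π : Fin (n c) → Fin (n c) → Bool, ∀ p : V × V → Bool, m p = c →
      ∃ i j, p (A c i, B c j) ≠ π i j := by
    intro c
    exact hn c (A c) (B c) (fun i => (e₁ _).2) (fun i => (e₂ _).2)
  choose π hπ' using hπ
  let p : V × V → Bool := fun x =>
    decide (∃ (c : ℕ) (i j : Fin (n c)), x = (A c i, B c j) ∧ π c i j = true)
  have hp : ∀ c i j, p (A c i, B c j) = π c i j := by
    intro c i j
    rw [Bool.eq_iff_iff]
    simp only [p, decide_eq_true_eq]
    constructor
    · rintro ⟨c', i', j', h, hπt⟩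
      rw [Prod.mk.injEq] at h
      have e1 := hA _ _ _ _ h.1
      have e2 := hB _ _ _ _ h.2
      obtain ⟨rfl, e1'⟩ := Sigma.mk.inj_iff.1 e1
      obtain ⟨_, e2'⟩ := Sigma.mk.inj_iff.1 e2
      rw [heq_iff_eq] at e1' e2'
      rw [e1', e2']
      exact hπt
    · intro h
      exact ⟨c, i, j, rfl, h⟩
  obtain ⟨i, j, hij⟩ := hπ' (m p) p rfl
  exact hij (hp _ i j)

end Combinatorics

section Space

variable (V : Type)

/-- The coordinates: three kinds, the third indexed by all functions `V × V → Bool`. -/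
abbrev Gam : Type := V ⊕ V ⊕ (V × V → Bool)

variable {V}

/-- The kind of a coordinate. -/
def part : Gam V → Fin 3 := Sum.elim (fun _ => 0) (Sum.elim (fun _ => 1) (fun _ => 2))

variable (V)

/-- The space: `0`-`1` functions with at most one coordinate of each kind equal to `1`, such that
if the coordinates `α`, `β`, `p` of the three kinds are all `1` then `p (α, β) = true`. -/
def KSet : Set (Gam V → Bool) :=
  {x | (∀ i j : Gam V, i ≠ j → part i = part j → ¬ (x i = true ∧ x j = true)) ∧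
    ∀ (α β : V) (p : V × V → Bool), x (Sum.inl α) = true → x (Sum.inr (Sum.inl β)) = true →
      x (Sum.inr (Sum.inr p)) = true → p (α, β) = true}

theorem isClosed_KSet : IsClosed (KSet V) := by
  have h : KSet V = (⋂ (i : Gam V) (j : Gam V) (_ : i ≠ j) (_ : part i = part j),
      {x : Gam V → Bool | ¬ (x i = true ∧ x j = true)}) ∩
      ⋂ (α : V) (β : V) (p : V × V → Bool), {x : Gam V → Bool | x (Sum.inl α) = true →
        x (Sum.inr (Sum.inl β)) = true → x (Sum.inr (Sum.inr p)) = true → p (α, β) = true} := by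
    ext x
    simp only [KSet, Set.mem_ofPred_eq, Set.mem_inter_iff, Set.mem_iInter]
  rw [h]
  apply IsClosed.inter
  · refine isClosed_iInter fun i => isClosed_iInter fun j => isClosed_iInter fun _ =>
      isClosed_iInter fun _ => ?_
    have : {x : Gam V → Bool | ¬ (x i = true ∧ x j = true)} =
        (fun x : Gam V → Bool => (x i, x j)) ⁻¹' {y | ¬ (y.1 = true ∧ y.2 = true)} := rfl
    rw [this]
    exact (isClosed_discrete _).preimage (by fun_prop)
  · refine isClosed_iInter fun α => isClosed_iInter fun β => isClosed_iInter fun p => ?_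
    have : {x : Gam V → Bool | x (Sum.inl α) = true → x (Sum.inr (Sum.inl β)) = true →
        x (Sum.inr (Sum.inr p)) = true → p (α, β) = true} =
        (fun x : Gam V → Bool => (x (Sum.inl α), x (Sum.inr (Sum.inl β)), x (Sum.inr (Sum.inr p)))) ⁻¹'
          {y | y.1 = true → y.2.1 = true → y.2.2 = true → p (α, β) = true} := rfl
    rw [this]
    exact (isClosed_discrete _).preimage (by fun_prop)

instance : CompactSpace (KSet V) := isCompact_iff_compactSpace.1 (isClosed_KSet V).isCompact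

theorem eberlein : EberleinCompact (KSet V) := by
  refine ⟨inferInstance, Gam V, fun x i => if x.1 i = true then 1 else 0, ?_, ?_⟩
  · apply Topology.IsClosedEmbedding.isEmbedding
    apply Continuous.isClosedEmbedding
    · refine continuous_pi fun i => ?_
      have : (fun x : KSet V => if x.1 i = true then (1 : ℝ) else 0) =
          (fun b : Bool => if b = true then (1 : ℝ) else 0) ∘ (fun x : KSet V => x.1 i) := rfl
      rw [this]
      exact continuous_of_discreteTopology.comp ((continuous_apply i).comp continuous_subtype_val)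
    · intro x y hxy
      apply Subtype.ext
      funext i
      have h := congrFun hxy i
      simp only at h
      rw [Bool.eq_iff_iff]
      constructor
      · intro hx
        by_contra hy
        rw [if_pos hx, if_neg hy] at h
        exact one_ne_zero h
      · intro hy
        by_contra hx
        rw [if_pos hy, if_neg hx] at h
        exact zero_ne_one h
  · intro x ε hε
    have hfin : {i : Gam V | x.1 i = true}.Finite := by
      apply Set.Finite.of_finite_image (f := part) (Set.toFinite _)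
      intro i hi j hj hij
      by_contra hne
      exact x.2.1 i j hne hij ⟨hi, hj⟩
    apply hfin.subset
    intro i hi
    by_contra hxi
    have h0 : (if x.1 i = true then (1 : ℝ) else 0) = 0 := if_neg hxi
    have h1 : ε ≤ |if x.1 i = true then (1 : ℝ) else 0| := hi
    rw [h0, abs_zero] at h1
    linarith

variable {V}

/-- The point of the space given by a hyperedge. -/
theorem exists_point (α β : V) (p : V × V → Bool) (h : p (α, β) = true) :
    ∃ x : KSet V, x.1 (Sum.inl α) = true ∧ x.1 (Sum.inr (Sum.inl β)) = true ∧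
      x.1 (Sum.inr (Sum.inr p)) = true := by
  classical
  refine ⟨⟨fun i => decide (i = Sum.inl α ∨ i = Sum.inr (Sum.inl β) ∨ i = Sum.inr (Sum.inr p)),
    ?_, ?_⟩, by simp, by simp, by simp⟩
  · rintro i j hij hpart ⟨hi, hj⟩
    simp only [decide_eq_true_eq] at hi hj
    rcases hi with rfl | rfl | rfl <;> rcases hj with rfl | rfl | rfl <;>
      first | exact hij rfl | (simp [part] at hpart)
  · intro α' β' p' h1 h2 h3
    simp only [decide_eq_true_eq] at h1 h2 h3
    have e1 : α' = α := by simpa using h1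
    have e2 : β' = β := by simpa using h2
    have e3 : p' = p := by simpa using h3
    rw [e1, e2, e3]
    exact h

/-- The space is not a continuous image of a supercompact space. -/
theorem not_image [Uncountable V] {S : Type u} [TopologicalSpace S] (hS : Supercompact S)
    (f : S → KSet V) (hf : Continuous f) (hsurj : Function.Surjective f) : False := by
  classical
  obtain ⟨P, hP, hB⟩ := hS
  have := compactSpace_of_supercompact hP hB
  have hclopen : ∀ i : Gam V, IsClopen (f ⁻¹' {x : KSet V | x.1 i = true}) := by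
    intro i
    apply IsClopen.preimage _ hf
    have : {x : KSet V | x.1 i = true} = (fun x : KSet V => x.1 i) ⁻¹' {true} := rfl
    rw [this]
    exact (isClopen_discrete _).preimage ((continuous_apply i).comp continuous_subtype_val)
  have hunion : ∀ i : Gam V, ∃ (n : ℕ) (M : ℕ → Set S), (∀ j < n, M j ∈ Inters P) ∧
      ∀ s, (f s).1 i = true ↔ ∃ j < n, s ∈ M j := by
    intro i
    obtain ⟨n, M, hM, hU⟩ := clopen_finite_union hP (hclopen i)
    refine ⟨n, fun j => if h : j < n then M ⟨j, h⟩ else ∅, ?_, ?_⟩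
    · intro j hj
      simp only [hj, dif_pos]
      exact hM _
    · intro s
      have h1 : (f s).1 i = true ↔ s ∈ f ⁻¹' {x : KSet V | x.1 i = true} := Iff.rfl
      rw [h1, hU, Set.mem_iUnion]
      constructor
      · rintro ⟨j, hj⟩
        exact ⟨j, j.2, by simpa using hj⟩
      · rintro ⟨j, hj, hs⟩
        simp only [hj, dif_pos] at hs
        exact ⟨⟨j, hj⟩, hs⟩
  choose m M hM hMU using hunion
  obtain ⟨a, ha⟩ := exists_infinite_fibre (fun α : V => m (Sum.inl α))
  obtain ⟨b, hb⟩ := exists_infinite_fibre (fun β : V => m (Sum.inr (Sum.inl β)))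
  obtain ⟨c, hc⟩ := exists_rich_class ha hb (fun p => m (Sum.inr (Sum.inr p)))
  set n : ℕ := a * c + b * c + 1 with hn
  obtain ⟨A, B, hA, hB', hAB⟩ := hc n
  have hAm : ∀ i, m (Sum.inl (A i)) = a := fun i => hA i
  have hBm : ∀ i, m (Sum.inr (Sum.inl (B i))) = b := fun i => hB' i
  have hp : ∀ (H : Fin n → Fin n → Fin n → Bool) (k : Fin n), ∃ p : V × V → Bool,
      m (Sum.inr (Sum.inr p)) = c ∧ ∀ i j, p (A i, B j) = H i j k :=
    fun H k => hAB fun i j => H i j k
  choose p hpm hpH using hp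
  let Q : (Fin n → Fin n → Fin n → Bool) → (Fin n × Fin a → Fin n × Fin c → Bool) :=
    fun H x y => decide ((M (Sum.inl (A x.1)) x.2 ∩ M (Sum.inr (Sum.inr (p H y.1))) y.2).Nonempty)
  let R : (Fin n → Fin n → Fin n → Bool) → (Fin n × Fin b → Fin n × Fin c → Bool) :=
    fun H x y => decide ((M (Sum.inr (Sum.inl (B x.1))) x.2 ∩
      M (Sum.inr (Sum.inr (p H y.1))) y.2).Nonempty)
  have key : ∀ H i j k, H i j k = true ↔ ∃ (u : Fin a) (v : Fin b) (w : Fin c),
      (M (Sum.inl (A i)) u ∩ M (Sum.inr (Sum.inl (B j))) v).Nonempty ∧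
      Q H (i, u) (k, w) = true ∧ R H (j, v) (k, w) = true := by
    intro H i j k
    constructor
    · intro hH
      obtain ⟨x, hx1, hx2, hx3⟩ := exists_point (A i) (B j) (p H k) (by rw [hpH]; exact hH)
      obtain ⟨s, rfl⟩ := hsurj x
      obtain ⟨u, hu, hsu⟩ := (hMU _ _).1 hx1
      obtain ⟨v, hv, hsv⟩ := (hMU _ _).1 hx2
      obtain ⟨w, hw, hsw⟩ := (hMU _ _).1 hx3
      rw [hAm] at hu
      rw [hBm] at hv
      rw [hpm] at hw
      refine ⟨⟨u, hu⟩, ⟨v, hv⟩, ⟨w, hw⟩, ⟨s, hsu, hsv⟩, ?_, ?_⟩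
      · exact decide_eq_true ⟨s, hsu, hsw⟩
      · exact decide_eq_true ⟨s, hsv, hsw⟩
    · rintro ⟨u, v, w, h12, h13, h23⟩
      have h13' := of_decide_eq_true h13
      have h23' := of_decide_eq_true h23
      have hu : (u : ℕ) < m (Sum.inl (A i)) := by rw [hAm]; exact u.2
      have hv : (v : ℕ) < m (Sum.inr (Sum.inl (B j))) := by rw [hBm]; exact v.2
      have hw : (w : ℕ) < m (Sum.inr (Sum.inr (p H k))) := by rw [hpm]; exact w.2
      obtain ⟨s, ⟨hs1, hs2⟩, hs3⟩ := triple hB (hM _ _ hu) (hM _ _ hv) (hM _ _ hw) h12 h13' h23'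
      have e1 := (hMU _ s).2 ⟨u, hu, hs1⟩
      have e2 := (hMU _ s).2 ⟨v, hv, hs2⟩
      have e3 := (hMU _ s).2 ⟨w, hw, hs3⟩
      rw [← hpH H k]
      exact (f s).2.2 _ _ _ e1 e2 e3
  have hinj : Function.Injective (fun H : Fin n → Fin n → Fin n → Bool => (Q H, R H)) := by
    intro H H' h
    rw [Prod.mk.injEq] at h
    funext i j k
    rw [Bool.eq_iff_iff, key H, key H', h.1, h.2]
  have hcard := Fintype.card_le_of_injective _ hinj
  simp only [Fintype.card_fun, Fintype.card_prod, Fintype.card_fin, Fintype.card_bool] at hcard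
  rw [← pow_mul, ← pow_mul, ← pow_mul, ← pow_mul, ← pow_add] at hcard
  have hle := (Nat.pow_le_pow_iff_right (by norm_num : 1 < 2)).1 hcard
  have h1 : n * c * (n * a) + n * c * (n * b) = n * n * (a * c + b * c) := by ring
  rw [h1, mul_assoc] at hle
  have hn0 : 0 < n := by omega
  have h2 := Nat.le_of_mul_le_mul_left hle hn0
  have h3 := Nat.le_of_mul_le_mul_left h2 hn0
  omega

end Space

/-- There is an Eberlein compact space which is not a continuous image of any supercompact space,
Hausdorff or not. -/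
theorem result : ∃ (K : Type) (_ : TopologicalSpace K), T2Space K ∧ EberleinCompact K ∧
    ∀ (S : Type u) [TopologicalSpace S], Supercompact S →
      ¬ ∃ f : S → K, Continuous f ∧ Function.Surjective f := by
  refine ⟨KSet ℝ, inferInstance, inferInstance, eberlein ℝ, ?_⟩
  rintro S _ hS ⟨f, hf, hsurj⟩
  exact not_image hS f hf hsurj

end Pool.Agent.Results.MP_0256c3_gt.NotSuperadic
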